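import Pool.Agent.DPS.Stmts

/-!
# MP_d97b4e_co, row P2A: the case p = 2 in function form
-/

namespace Pool.Agent.DPS.H24

open Finset Polynomial

theorem two_mul_le {n k t : ℕ} (h1 : 1 ≤ t) (h2 : t < k) (h3 : (t + 1) * (k - t + 1) ≤ n) :
    2 * k ≤ n := by
  obtain ⟨a, rfl⟩ := Nat.exists_eq_add_of_lt h2
  obtain ⟨b, rfl⟩ := Nat.exists_eq_add_of_le h1
  have h4 : 1 + b + a + 1 - (1 + b) + 1 = a + 2 := by omega
  rw [h4] at h3
  nlinarith [Nat.zero_le (a * b)]

theorem dg_ind_empty {n k : ℕ} (A : Finset (KS n k)) : dg (ind A) ∅ = (A.card : ℝ) := by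
  unfold dg ind
  simp

theorem dg_star_empty {n k : ℕ} (T : Finset (Fin n)) :
    dg (star k T) ∅ = ip (star k T) (star k T) := by
  unfold dg ip star
  refine Finset.sum_congr rfl fun F _ => ?_
  rw [if_pos (Finset.empty_subset _)]
  split_ifs <;> simp

theorem ip_star_pos {n k : ℕ} (T : Finset (Fin n)) (h1 : T.card ≤ k) (h2 : k ≤ n) :
    0 < ip (star k T) (star k T) := by
  obtain ⟨F, hTF, -, hF⟩ := Finset.exists_subsuperset_card_eq (Finset.subset_univ T) h1
    (by rw [Finset.card_univ, Fintype.card_fin]; exact h2)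
  unfold ip
  refine Finset.sum_pos' (fun G _ => mul_self_nonneg _) ⟨⟨F, hF⟩, Finset.mem_univ _, ?_⟩
  unfold star
  rw [if_pos hTF]
  norm_num

/-- Row P2A. -/
theorem p2a (gen : GENStmt) (mpo : MPOStmt) (man : MANStmt) (qua : QUAStmt) : P2AStmt := by
  intro n k t r ht htk hrk hn A hA T hT
  have h2k : 2 * k ≤ n := two_mul_le ht htk hn
  have key : ∀ r : ℕ, r ≤ k → ip (star k T) (star k T) *
      ∑ R ∈ Finset.powersetCard r (Finset.univ : Finset (Fin n)), dg (ind A) R ^ 2 ≤
        (A.card : ℝ) *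
          ∑ R ∈ Finset.powersetCard r (Finset.univ : Finset (Fin n)), dg (star k T) R ^ 2 := by
    intro r hr
    have h := gen n k t ht htk hn (mp n k r) (fun i j hij hjk => (man n k r i j h2k hr hij hjk).2)
      A hA T hT
    rw [mpo n k r hr, qua, qua] at h
    exact h
  refine ⟨?_, key r hrk⟩
  have h0 := key 0 (Nat.zero_le k)
  rw [Finset.powersetCard_zero, Finset.sum_singleton, Finset.sum_singleton, dg_ind_empty,
    dg_star_empty] at h0
  have hS : 0 < ip (star k T) (star k T) := ip_star_pos T (by omega) (by omega)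
  set S := ip (star k T) (star k T) with hSdef
  by_contra hlt
  push Not at hlt
  have hA0 : 0 < (A.card : ℝ) := lt_trans hS hlt
  have h1 : (A.card : ℝ) * S * (A.card - S) ≤ 0 := by nlinarith [h0]
  have h2 : 0 < (A.card : ℝ) * S * (A.card - S) :=
    mul_pos (mul_pos hA0 hS) (sub_pos.mpr hlt)
  linarith

end Pool.Agent.DPS.H24
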